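import Pool.Agent.Helper97.Tate.Goals

/-!
# Project FewPoints (MP_d3128a_ag), packet TATE-MUL: products of theta functions
-/

set_option autoImplicit false

namespace Pool.Agent.Helper56.Tate.MUL

open Pool.Agent.Helper97.Tate

/-- the substitution -/
def sub (κ : ℤ) : ℤ × ℤ ≃ ℤ × ℤ where
  toFun q := (q.1 + q.2, q.2 + κ)
  invFun p := (p.1 - (p.2 - κ), p.2 - κ)
  left_inv q := by ext <;> simp
  right_inv p := by ext <;> simp

lemma cf_one (k : Type) [Field k] (N n : ℤ) :
    cf (1 : SS k) N n = if N = 0 ∧ n = 0 then 1 else 0 := by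
  unfold cf
  by_cases hN : 0 ≤ N
  · rw [if_pos hN, PowerSeries.coeff_one]
    by_cases h0 : N = 0
    · subst h0
      by_cases hn : n = 0
      · subst hn
        simp
      · have e : ((1 : LaurentPolynomial k).coeff n) = 0 := by
          rw [show (1 : LaurentPolynomial k) = AddMonoidAlgebra.single 0 1 from
            AddMonoidAlgebra.one_def]
          show (Finsupp.single (0 : ℤ) (1 : k)) n = 0
          exact Finsupp.single_eq_of_ne (fun h => hn h)
        simpa [hn] using e
    · have h1 : N.toNat ≠ 0 := by omega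
      simp [h0, h1]
  · rw [if_neg hN, if_neg (by omega)]

theorem t (h1 : S_CFM) : S_MUL := by
  intro k _
  refine ⟨?_, ?_⟩
  · intro N n
    rw [cf_one, cf_one]
    by_cases h : N = 0 ∧ n = 0
    · obtain ⟨rfl, rfl⟩ := h
      simp
    · rw [if_neg, if_neg]
      · simp
      · omega
      · intro h'; apply h; push_cast at h'; omega
  · intro κ κ' c c' f g hf hg N n
    have e1 := (h1 k f g N (n + ((κ + κ' : ℕ) : ℤ))).2
    have e2 := (h1 k f g (N - n) n).2
    rw [e1, e2, ← finsum_comp_equiv (sub κ)]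
    rw [mul_finsum]
    refine finsum_congr fun q => ?_
    show cf f (q.1 + q.2) (q.2 + κ) * cf g (N - (q.1 + q.2))
      (n + ((κ + κ' : ℕ) : ℤ) - (q.2 + κ)) = _
    rw [hf, show n + ((κ + κ' : ℕ) : ℤ) - (q.2 + κ) = (n - q.2) + κ' by push_cast; ring, hg,
      show q.1 + q.2 - q.2 = q.1 by ring,
      show N - (q.1 + q.2) - (n - q.2) = N - n - q.1 by ring]
    ring

end Pool.Agent.Helper56.Tate.MUL
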